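import Pool.Graph.R_seed8.H254R3.IN.Defs

/-!
# Characters of quotients by central `p`-subgroups
-/

set_option autoImplicit false
set_option linter.unusedSectionVars false

open scoped BigOperators Classical
open Pool.Agent.H254R3.IN

noncomputable section

namespace Pool.Agent.Helper15.KB

variable {H : Type} [Group H]

/-- inflation of representations -/
theorem irr_infl (Z : Subgroup H) [Z.Normal] (ψ : H ⧸ Z → ℂ) (h : IsIrr ψ) :
    IsIrr (fun h : H => ψ (h : H ⧸ Z)) := by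
  obtain ⟨V, _, _, _, ρ, hρ, rfl⟩ := h
  let σ : Representation ℂ H V := ρ.comp (QuotientGroup.mk' Z)
  have hσ : ∀ h : H, σ h = ρ (h : H ⧸ Z) := fun h => rfl
  refine ⟨V, inferInstance, inferInstance, inferInstance, σ, ?_, ?_⟩
  · let e : Subrepresentation σ ≃o Subrepresentation ρ :=
      { toFun := fun s => ⟨s.toSubmodule, fun g => by
          obtain ⟨h, rfl⟩ := QuotientGroup.mk_surjective g
          exact s.apply_mem_toSubmodule h⟩
        invFun := fun s => ⟨s.toSubmodule, fun h => s.apply_mem_toSubmodule (h : H ⧸ Z)⟩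
        left_inv := fun s => rfl
        right_inv := fun s => rfl
        map_rel_iff' := Iff.rfl }
    exact (OrderIso.isSimpleOrder_iff e).2 hρ
  · rfl

variable {p : ℕ} [Fact p.Prime] {Z : Subgroup H}

/-- a `p`-regular element and its product with a central `p`-element -/
theorem eq_one_of_regular (hZ : Z ≤ Subgroup.center H) (hp : IsPGroup p Z) {x z : H} (hz : z ∈ Z)
    (hx : ¬ p ∣ orderOf x) (hxz : ¬ p ∣ orderOf (x * z)) : z = 1 := by
  obtain ⟨k, hk⟩ := hp ⟨z, hz⟩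
  have hk' : z ^ p ^ k = 1 := congrArg Subtype.val hk
  have hcom : Commute x z := (Subgroup.mem_center_iff.1 (hZ hz) x)
  have hpp : p.Prime := Fact.out
  set n := orderOf x * orderOf (x * z) with hn
  have h1 : z ^ n = 1 := by
    have h2 : (x * z) ^ n = 1 := by
      rw [hn, mul_comm, pow_mul, pow_orderOf_eq_one, one_pow]
    rw [hcom.mul_pow, hn, pow_mul, pow_orderOf_eq_one, one_pow, one_mul] at h2
    exact h2
  have hcop : Nat.Coprime n (p ^ k) := by
    apply Nat.Coprime.pow_right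
    rw [hn]
    exact Nat.Coprime.mul_left ((Nat.Prime.coprime_iff_not_dvd hpp).2 hx).symm
      ((Nat.Prime.coprime_iff_not_dvd hpp).2 hxz).symm
  have h3 : orderOf z ∣ 1 := by
    rw [← hcop]
    exact Nat.dvd_gcd (orderOf_dvd_of_pow_eq_one h1) (orderOf_dvd_of_pow_eq_one hk')
  exact orderOf_eq_one_iff.1 (Nat.dvd_one.1 h3)

variable [Z.Normal]

theorem eq_of_regular (hZ : Z ≤ Subgroup.center H) (hp : IsPGroup p Z) {x y : H}
    (hx : ¬ p ∣ orderOf x) (hy : ¬ p ∣ orderOf y) (h : (x : H ⧸ Z) = y) : x = y := by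
  have h1 : x⁻¹ * y ∈ Z := QuotientGroup.eq.1 h
  have h2 := eq_one_of_regular hZ hp h1 hx (by rwa [mul_inv_cancel_left])
  rw [← mul_one x, ← h2, mul_inv_cancel_left]

theorem regular_mk [Finite H] {x : H} (hx : ¬ p ∣ orderOf x) : ¬ p ∣ orderOf (x : H ⧸ Z) :=
  fun h => hx (h.trans (orderOf_map_dvd (QuotientGroup.mk' Z) x))

theorem orderOf_conj (x g : H) : orderOf (g * x * g⁻¹) = orderOf x := by
  have := orderOf_injective (MulAut.conj g).toMonoidHom (MulAut.conj g).injective x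
  simpa using this

theorem isConj_order {x y : H} (h : IsConj x y) : orderOf y = orderOf x := by
  obtain ⟨g, hg⟩ := isConj_iff.1 h
  rw [← hg, orderOf_conj]

/-- the classes -/
theorem card_class [Finite H] (hZ : Z ≤ Subgroup.center H) (hp : IsPGroup p Z) {x : H}
    (hx : ¬ p ∣ orderOf x) :
    Nat.card {y : H // IsConj x y} = Nat.card {y : H ⧸ Z // IsConj (x : H ⧸ Z) y} := by
  have hmap : ∀ y : H, IsConj x y → IsConj (x : H ⧸ Z) (y : H ⧸ Z) := by
    intro y hy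
    exact MonoidHom.map_isConj (QuotientGroup.mk' Z) hy
  refine Nat.card_eq_of_bijective
    (fun y : {y : H // IsConj x y} => (⟨(y.1 : H ⧸ Z), hmap _ y.2⟩ :
      {y : H ⧸ Z // IsConj (x : H ⧸ Z) y})) ⟨?_, ?_⟩
  · rintro ⟨y, hy⟩ ⟨y', hy'⟩ h
    have h1 : (y : H ⧸ Z) = y' := congrArg Subtype.val h
    apply Subtype.ext
    refine eq_of_regular hZ hp ?_ ?_ h1
    · rwa [isConj_order hy]
    · rwa [isConj_order hy']
  · rintro ⟨y, hy⟩
    obtain ⟨g, hg⟩ := isConj_iff.1 hy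
    obtain ⟨g, rfl⟩ := QuotientGroup.mk_surjective g
    exact ⟨⟨g * x * g⁻¹, isConj_iff.2 ⟨g, rfl⟩⟩, Subtype.ext hg⟩

theorem omega_infl [Finite H] (hZ : Z ≤ Subgroup.center H) (hp : IsPGroup p Z) (ψ : H ⧸ Z → ℂ)
    {x : H} (hx : ¬ p ∣ orderOf x) :
    omega (fun h : H => ψ (h : H ⧸ Z)) x = omega ψ (x : H ⧸ Z) := by
  unfold omega
  rw [card_class hZ hp hx]
  rfl

/-- lifts of regular elements -/
theorem exists_regular [Finite H] (hp : IsPGroup p Z) (y : H ⧸ Z) (hy : ¬ p ∣ orderOf y) :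
    ∃ x : H, (x : H ⧸ Z) = y ∧ ¬ p ∣ orderOf x := by
  have hpp : p.Prime := Fact.out
  obtain ⟨g, rfl⟩ := QuotientGroup.mk_surjective y
  set n := orderOf (g : H ⧸ Z) with hn
  have hg : g ^ n ∈ Z := by
    rw [← QuotientGroup.eq_one_iff]
    have : ((g ^ n : H) : H ⧸ Z) = (g : H ⧸ Z) ^ n := rfl
    rw [this, hn, pow_orderOf_eq_one]
  obtain ⟨k, hk⟩ := hp ⟨g ^ n, hg⟩
  have hk' : (g ^ n) ^ p ^ k = 1 := congrArg Subtype.val hk
  have hcop : Nat.Coprime (p ^ k) n := by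
    apply Nat.Coprime.pow_left
    exact (Nat.Prime.coprime_iff_not_dvd hpp).2 hy
  have hn0 : 0 < n := orderOf_pos _
  obtain ⟨a, ha⟩ : ∃ a : ℕ, p ^ k * a ≡ 1 [MOD n] := by
    obtain ⟨a, ha⟩ := Nat.exists_mul_mod_eq_of_coprime 1 hcop hn0.ne'
    exact ⟨a, by rw [Nat.ModEq]; exact ha.2⟩
  refine ⟨g ^ (p ^ k * a), ?_, ?_⟩
  · have h1 : ((g ^ (p ^ k * a) : H) : H ⧸ Z) = (g : H ⧸ Z) ^ (p ^ k * a) := rfl
    rw [h1]
    conv_rhs => rw [← pow_one (g : H ⧸ Z)]
    exact pow_eq_pow_iff_modEq.2 ha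
  · intro hdvd
    have h2 : (g ^ (p ^ k * a)) ^ n = 1 := by
      rw [← pow_mul, show p ^ k * a * n = n * p ^ k * a by ring, pow_mul, pow_mul, hk', one_pow]
    exact hy (hdvd.trans (orderOf_dvd_of_pow_eq_one h2))

/-- sums over regular elements -/
theorem sum_regular [Fintype H] [Fintype (H ⧸ Z)] (hZ : Z ≤ Subgroup.center H) (hp : IsPGroup p Z)
    (f : H ⧸ Z → ℂ) : ∑ y : H ⧸ Z, (if p ∣ orderOf y then 0 else f y) =
      ∑ x : H, if p ∣ orderOf x then 0 else f (x : H ⧸ Z) := by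
  have e1 : ∀ {K : Type} [Fintype K] [Group K] (u : K → ℂ),
      ∑ y : K, (if p ∣ orderOf y then 0 else u y) =
        ∑ y ∈ Finset.univ.filter (fun y : K => ¬ p ∣ orderOf y), u y := by
    intro K _ _ u
    rw [Finset.sum_filter]
    refine Finset.sum_congr rfl fun y _ => ?_
    by_cases h : p ∣ orderOf y <;> simp [h]
  rw [e1, e1]
  symm
  refine Finset.sum_bij (fun x _ => (x : H ⧸ Z)) ?_ ?_ ?_ ?_
  · intro x hx
    rw [Finset.mem_filter] at hx ⊢
    exact ⟨Finset.mem_univ _, regular_mk hx.2⟩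
  · intro x hx y hy h
    rw [Finset.mem_filter] at hx hy
    exact eq_of_regular hZ hp hx.2 hy.2 h
  · intro y hy
    rw [Finset.mem_filter] at hy
    obtain ⟨x, hx, hx'⟩ := exists_regular hp y hy.2
    exact ⟨x, by rw [Finset.mem_filter]; exact ⟨Finset.mem_univ _, hx'⟩, hx⟩
  · intro x _
    rfl

end Pool.Agent.Helper15.KB
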