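import Pool.Agent.Helper97.KB.Stm
import Pool.Agent.Helper15.KB.QuoA

/-!
# Package Quo
-/

set_option autoImplicit false

open scoped BigOperators Classical
open Pool.Agent.Helper884 Pool.Agent.H254R3.IN Pool.Agent.N20

noncomputable section

namespace Pool.Agent.Helper15.KB

theorem quo : Pool.Agent.Helper97.KB.S_Quo := by
  intro H _ _ p _ Z _ hZ hp
  refine ⟨fun ψ h => irr_infl Z ψ h, fun ψ x hx => omega_infl hZ hp ψ hx,
    fun y hy => exists_regular hp y hy, ?_⟩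
  intro _ ψ ψ'
  have h1 := sum_regular hZ hp (fun y : H ⧸ Z => ψ y * ψ' y⁻¹)
  unfold IC.B cut
  have h2 : ∀ {K : Type} [Fintype K] [Group K] (u v : K → ℂ),
      (∑ g : K, (if p ∣ orderOf g then 0 else u g) * v g⁻¹) =
        ∑ g : K, if p ∣ orderOf g then 0 else u g * v g⁻¹ := by
    intro K _ _ u v
    refine Finset.sum_congr rfl fun g _ => ?_
    split_ifs
    · rw [zero_mul]
    · rfl
  rw [h2 ψ ψ', h1]
  have h7 := h2 (K := H) (fun h : H => ψ (h : H ⧸ Z)) (fun h : H => ψ' (h : H ⧸ Z))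
  have h3 : (Nat.card H : ℂ) = Nat.card (H ⧸ Z) * Nat.card Z := by
    exact_mod_cast Subgroup.card_eq_card_quotient_mul_card_subgroup Z
  have h4 : (Nat.card Z : ℂ) ≠ 0 := by exact_mod_cast Nat.card_pos.ne'
  have h5 : (Nat.card (H ⧸ Z) : ℂ) ≠ 0 := by exact_mod_cast Nat.card_pos.ne'
  rw [h3]
  have h6 : ∑ x : H, (if p ∣ orderOf x then 0 else ψ (x : H ⧸ Z) * ψ' ((x : H ⧸ Z))⁻¹) =
      ∑ g : H, (if p ∣ orderOf g then 0 else (fun h : H => ψ (h : H ⧸ Z)) g) *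
        (fun h : H => ψ' (h : H ⧸ Z)) g⁻¹ := by
    rw [h7]
    rfl
  rw [h6]
  field_simp

end Pool.Agent.Helper15.KB

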